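import Mathlib

set_option autoImplicit false
open Sum

namespace Pool.Agent.Results.MP_1c393c_co.Family

def Proper {β : Type} (G : SimpleGraph β) (c : Sym2 β → ℕ) : Prop :=
  ∀ u v w, G.Adj u v → G.Adj u w → v ≠ w → c s(u, v) ≠ c s(u, w)

def Rainbow {α β : Type} (H : SimpleGraph α) (G : SimpleGraph β) (c : Sym2 β → ℕ) : Prop :=
  ∃ f : α → β, Function.Injective f ∧ (∀ a b, H.Adj a b → G.Adj (f a) (f b)) ∧
    Set.InjOn (fun e => c (Sym2.map f e)) H.edgeSet

def Witness {α β : Type} (H : SimpleGraph α) (G : SimpleGraph β) : Prop :=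
  ∃ k : ℕ, IsLeast {m | ∃ c, Proper G c ∧ (c '' G.edgeSet).ncard = m} k ∧
    (∀ c, Proper G c → (c '' G.edgeSet).ncard = k → Rainbow H G c) ∧
    ∃ c, Proper G c ∧ ¬ Rainbow H G c

def hrel (k : ℕ) : Fin 4 ⊕ Fin k → Fin 4 ⊕ Fin k → Prop
  | inl i, inl j => j = i + 1
  | inl i, inr _ => i = 0
  | _, _ => False

def H (k : ℕ) : SimpleGraph (Fin 4 ⊕ Fin k) := SimpleGraph.fromRel (hrel k)

theorem H_edge (k : ℕ) (e : Sym2 (Fin 4 ⊕ Fin k)) (he : e ∈ (H k).edgeSet) :
    e = s(inl 0, inl 1) ∨ e = s(inl 2, inl 1) ∨ e = s(inl 2, inl 3) ∨ e = s(inl 0, inl 3) ∨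
      ∃ t, e = s(inl 0, inr t) := by
  induction e using Sym2.ind with
  | _ a b =>
    rw [SimpleGraph.mem_edgeSet, H, SimpleGraph.fromRel_adj] at he
    obtain ⟨-, h⟩ := he
    rcases a with a | a <;> rcases b with b | b <;> simp only [hrel, or_false, false_or] at h
    · rcases h with rfl | rfl
      · fin_cases a <;> simp
      · fin_cases b <;> simp
    · subst h; simp
    · subst h; simp

theorem H_adj0 (k : ℕ) (t : Fin k) : (H k).Adj (inl 0) (inr t) := by
  simp [H, hrel]

theorem H_adjc (k : ℕ) (i : Fin 4) : (H k).Adj (inl i) (inl (i + 1)) := by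
  simp [H, hrel]

theorem H_conn (k : ℕ) : (H k).Connected := by
  have h : ∀ v, (H k).Reachable (inl 0) v := by
    rintro (i | t)
    · have h1 := (H_adjc k 0).reachable
      have h2 := h1.trans (H_adjc k 1).reachable
      have h3 := h2.trans (H_adjc k 2).reachable
      fin_cases i
      · exact SimpleGraph.Reachable.refl _
      · exact h1
      · exact h2
      · exact h3
    · exact (H_adj0 k t).reachable
  exact SimpleGraph.Connected.mk fun a b => (h a).symm.trans (h b)

theorem ext {β : Type} [Fintype β] (G : SimpleGraph β) (c : Sym2 β → ℕ) (hc : Proper G c)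
    (k : ℕ) (z a o b : β) (hza : G.Adj z a) (hoa : G.Adj o a) (hob : G.Adj o b) (hzb : G.Adj z b)
    (hab : a ≠ b) (hzo : z ≠ o) (hn : ¬ G.Adj z o)
    (h1 : c s(z, a) ≠ c s(o, b)) (h2 : c s(z, b) ≠ c s(o, a))
    (hd : k + 4 ≤ (G.neighborSet z).ncard) : Rainbow (H k) G c := by
  classical
  let N : Finset β := Finset.univ.filter (fun v => G.Adj z v)
  have hN : k + 4 ≤ N.card := by
    rw [← Set.ncard_coe_finset]
    convert hd using 2
    ext v; simp [N]
  have hone : ∀ m : ℕ, (N.filter (fun v => c s(z, v) = m)).card ≤ 1 := by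
    intro m
    rw [Finset.card_le_one]
    intro v hv v' hv'
    simp only [N, Finset.mem_filter, Finset.mem_univ, true_and] at hv hv'
    by_contra hne
    exact hc z v v' hv.1 hv'.1 hne (hv.2.trans hv'.2.symm)
  let Bad : Finset β := ({a, b} ∪ N.filter (fun v => c s(z, v) = c s(o, a))) ∪
    N.filter (fun v => c s(z, v) = c s(o, b))
  have hB : Bad.card ≤ 4 := by
    have e1 := Finset.card_union_le ({a, b} ∪ N.filter (fun v => c s(z, v) = c s(o, a)))
      (N.filter (fun v => c s(z, v) = c s(o, b)))
    have e2 := Finset.card_union_le {a, b} (N.filter (fun v => c s(z, v) = c s(o, a)))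
    have e3 : ({a, b} : Finset β).card ≤ 2 := Finset.card_le_two
    have := hone (c s(o, a)); have := hone (c s(o, b))
    simp only [Bad]; omega
  have hS : k ≤ (N \ Bad).card := by
    have := Finset.le_card_sdiff Bad N; omega
  obtain ⟨p, hp⟩ : ∃ p : Fin k ↪ β, ∀ t, p t ∈ N \ Bad := by
    obtain ⟨T, hT, hTc⟩ := Finset.exists_subset_card_eq hS
    exact ⟨(T.equivFinOfCardEq hTc).symm.toEmbedding.trans (Function.Embedding.subtype _),
      fun t => hT ((T.equivFinOfCardEq hTc).symm t).2⟩
  have hp' : ∀ t, G.Adj z (p t) ∧ p t ≠ a ∧ p t ≠ b ∧ c s(z, p t) ≠ c s(o, a) ∧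
      c s(z, p t) ≠ c s(o, b) := by
    intro t
    have := hp t
    simp only [N, Bad, Finset.mem_sdiff, Finset.mem_filter, Finset.mem_univ, true_and,
      Finset.mem_union, Finset.mem_insert, Finset.mem_singleton, not_or, not_and] at this
    exact ⟨this.1, this.2.1.1.1, this.2.1.1.2, this.2.1.2 this.1, this.2.2 this.1⟩
  let f : Fin 4 ⊕ Fin k → β := Sum.elim ![z, a, o, b] p
  have hza' := hza.ne
  have hzb' := hzb.ne
  have hoa' := hoa.ne
  have hob' := hob.ne
  have hf : ∀ i t, f (inl i) ≠ f (inr t) := by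
    intro i t h
    obtain ⟨q1, q2, q3, -, -⟩ := hp' t
    fin_cases i
    · exact q1.ne h
    · exact q2 h.symm
    · have h' : o = p t := h
      exact hn (h' ▸ q1)
    · exact q3 h.symm
  refine ⟨f, ?_, ?_, ?_⟩
  · rintro (i | t) (j | t') h
    · fin_cases i <;> fin_cases j <;> simp_all [f]
    · exact absurd h (hf i t')
    · exact absurd h.symm (hf j t)
    · simp only [f, Sum.elim_inr] at h
      rw [p.injective h]
  · intro x y hxy
    have : Sym2.map f s(x, y) ∈ G.edgeSet := by
      rcases H_edge k _ ((H k).mem_edgeSet.2 hxy) with h | h | h | h | ⟨t, h⟩ <;> rw [h]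
      · exact hza
      · exact hoa
      · exact hob
      · exact hzb
      · exact (hp' t).1
    exact this
  · have c1 : c s(z, a) ≠ c s(z, b) := hc z a b hza hzb hab
    have c2 : c s(o, a) ≠ c s(o, b) := hc o a b hoa hob hab
    have c3 : c s(z, a) ≠ c s(o, a) := by
      have := hc a z o hza.symm hoa.symm hzo
      rwa [Sym2.eq_swap (a := a) (b := z), Sym2.eq_swap (a := a) (b := o)] at this
    have c4 : c s(z, b) ≠ c s(o, b) := by
      have := hc b z o hzb.symm hob.symm hzo
      rwa [Sym2.eq_swap (a := b) (b := z), Sym2.eq_swap (a := b) (b := o)] at this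
    have c5 : ∀ t, c s(z, p t) ≠ c s(z, a) := fun t => hc z _ _ (hp' t).1 hza (hp' t).2.1
    have c6 : ∀ t, c s(z, p t) ≠ c s(z, b) := fun t => hc z _ _ (hp' t).1 hzb (hp' t).2.2.1
    have c7 : ∀ t, c s(z, p t) ≠ c s(o, a) := fun t => (hp' t).2.2.2.1
    have c8 : ∀ t, c s(z, p t) ≠ c s(o, b) := fun t => (hp' t).2.2.2.2
    intro e he e' he' h
    have m1 : Sym2.map f s(inl 0, inl 1) = s(z, a) := rfl
    have m2 : Sym2.map f s(inl 2, inl 1) = s(o, a) := rfl
    have m3 : Sym2.map f s(inl 2, inl 3) = s(o, b) := rfl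
    have m4 : Sym2.map f s(inl 0, inl 3) = s(z, b) := rfl
    have m5 : ∀ t, Sym2.map f s(inl 0, inr t) = s(z, p t) := fun t => rfl
    rcases H_edge k _ he with rfl | rfl | rfl | rfl | ⟨t, rfl⟩ <;>
      rcases H_edge k _ he' with rfl | rfl | rfl | rfl | ⟨t', rfl⟩ <;>
      simp only [m1, m2, m3, m4, m5] at h <;>
      first
        | rfl
        | exact absurd h (by assumption)
        | exact absurd h.symm (by assumption)
        | exact absurd h (c5 _) | exact absurd h (c6 _) | exact absurd h (c7 _)
        | exact absurd h (c8 _) | exact absurd h.symm (c5 _) | exact absurd h.symm (c6 _)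
        | exact absurd h.symm (c7 _) | exact absurd h.symm (c8 _)
        | (by_cases htt : t = t'
           · rw [htt]
           · exact absurd h (hc z _ _ (hp' t).1 (hp' t').1 (fun q => htt (p.injective q))))

abbrev U (r : ℕ) := Option (Bool × Fin r)
abbrev W (r : ℕ) := Option (Bool × Fin r × Fin r)

def rel {r : ℕ} (u : U r) : W r → Prop
  | none => True
  | some (_, i, j) => u = some (false, i) ∨ u = some (true, j)

def grel (r : ℕ) : U r ⊕ W r → U r ⊕ W r → Prop
  | inl u, inr t => rel u t
  | inr t, inl u => rel u t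
  | _, _ => False

def G (r : ℕ) : SimpleGraph (U r ⊕ W r) where
  Adj := grel r
  symm := ⟨by rintro (a | a) (b | b) h <;> exact h⟩
  loopless := ⟨by rintro (a | a) h <;> exact h⟩

def lft {r : ℕ} (col : U r → W r → ℕ) : Sym2 (U r ⊕ W r) → ℕ :=
  Sym2.lift ⟨fun a b => match a, b with
    | inl u, inr t => col u t
    | inr t, inl u => col u t
    | _, _ => 0, by rintro (a | a) (b | b) <;> rfl⟩

theorem proper_lft {r : ℕ} (col : U r → W r → ℕ)
    (h1 : ∀ u t t', rel u t → rel u t' → col u t = col u t' → t = t')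
    (h2 : ∀ u u' t, rel u t → rel u' t → col u t = col u' t → u = u') :
    Proper (G r) (lft col) := by
  rintro (u | t) (a | a) (b | b) ha hb hab h <;> try exact ha.elim
  · exact hb.elim
  · exact hab (congrArg inr (h1 u a b ha hb h))
  · exact hab (congrArg inl (h2 a b t ha hb h))
  · exact hb.elim

def col1 {r : ℕ} : U r → W r → U r
  | u, none => u
  | none, some _ => none
  | some (false, _), some (false, _, j) => some (true, j)
  | some (true, _), some (true, i, _) => some (false, i)
  | some (false, _), some (true, i, j) => if i = j then none else some (false, j)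
  | some (true, _), some (false, i, j) => if i = j then none else some (true, i)

def col2 {r : ℕ} : U r → W r → U r ⊕ Fin r × Fin r
  | u, none => inl u
  | none, some _ => inl none
  | some (false, _), some (false, _, j) => inl (some (true, j))
  | some (true, _), some (true, i, _) => inl (some (false, i))
  | some (false, _), some (true, i, j) => inr (i, j)
  | some (true, _), some (false, i, j) => inr (i, j)

theorem col1_a {r : ℕ} (u : U r) (t t' : W r) (h : rel u t) (h' : rel u t')
    (e : col1 u t = col1 u t') : t = t' := by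
  rcases t with _ | ⟨_ | _, i, j⟩ <;> rcases t' with _ | ⟨_ | _, i', j'⟩ <;>
    simp only [rel] at h h' <;> (try rcases h with rfl | rfl) <;> (try rcases h' with h' | h') <;>
    simp only [col1] at e <;> (try split_ifs at e) <;> simp_all <;> grind

theorem col1_b {r : ℕ} (u u' : U r) (t : W r) (h : rel u t) (h' : rel u' t)
    (e : col1 u t = col1 u' t) : u = u' := by
  rcases t with _ | ⟨_ | _, i, j⟩ <;>
    simp only [rel] at h h' <;> (try rcases h with rfl | rfl) <;> (try rcases h' with rfl | rfl) <;>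
    simp only [col1] at e <;> (try split_ifs at e) <;> simp_all

theorem col2_a {r : ℕ} (u : U r) (t t' : W r) (h : rel u t) (h' : rel u t')
    (e : col2 u t = col2 u t') : t = t' := by
  rcases t with _ | ⟨_ | _, i, j⟩ <;> rcases t' with _ | ⟨_ | _, i', j'⟩ <;>
    simp only [rel] at h h' <;> (try rcases h with rfl | rfl) <;> (try rcases h' with h' | h') <;>
    simp only [col2] at e <;> simp_all

theorem col2_b {r : ℕ} (u u' : U r) (t : W r) (h : rel u t) (h' : rel u' t)
    (e : col2 u t = col2 u' t) : u = u' := by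
  rcases t with _ | ⟨_ | _, i, j⟩ <;>
    simp only [rel] at h h' <;> (try rcases h with rfl | rfl) <;> (try rcases h' with rfl | rfl) <;>
    simp only [col2] at e <;> simp_all

theorem col2_c {r : ℕ} (u u' : U r) (t t' : W r) (hu : u ≠ u') (ht : t ≠ t') (h1 : rel u t)
    (h2 : rel u t') (h3 : rel u' t) (h4 : rel u' t') :
    col2 u t = col2 u' t' ∨ col2 u t' = col2 u' t := by
  rcases t with _ | ⟨_ | _, i, j⟩ <;> rcases t' with _ | ⟨_ | _, i', j'⟩ <;>
    simp only [rel] at h1 h2 h3 h4 <;>
    (try rcases h1 with h1 | h1) <;> (try rcases h2 with h2 | h2) <;>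
    (try rcases h3 with h3 | h3) <;> (try rcases h4 with h4 | h4) <;>
    simp_all [col2]

theorem card_U (r : ℕ) : Fintype.card (U r) = 2 * r + 1 := by simp

theorem deg_L (r : ℕ) (i : Fin r) :
    2 * r + 1 ≤ ((G r).neighborSet (inl (some (false, i)))).ncard := by
  let g : U r → U r ⊕ W r := fun u => match u with
    | none => inr none
    | some (b, j) => inr (some (b, i, j))
  have hg : Function.Injective g := by
    rintro (_ | ⟨b, j⟩) (_ | ⟨b', j'⟩) h <;> simp_all [g]
  have h1 : (Set.range g).ncard = 2 * r + 1 := by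
    rw [Set.ncard_range_of_injective hg, Nat.card_eq_fintype_card, card_U]
  rw [← h1]
  refine Set.ncard_le_ncard ?_ (Set.toFinite _)
  rintro _ ⟨(_ | ⟨b, j⟩), rfl⟩
  · trivial
  · exact Or.inl rfl

theorem forced (r : ℕ) (c : Sym2 (U (r + 2) ⊕ W (r + 2)) → ℕ) (hc : Proper (G (r + 2)) c)
    (hk : (c '' (G (r + 2)).edgeSet).ncard ≤ 2 * (r + 2) + 1) :
    Rainbow (H (2 * r + 1)) (G (r + 2)) c := by
  by_contra hno
  let cc : U (r + 2) → W (r + 2) → ℕ := fun u t => c s(inl u, inr t)
  have pa : ∀ u t t', rel u t → rel u t' → cc u t = cc u t' → t = t' := by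
    intro u t t' h h' e
    by_contra hne
    exact hc (inl u) (inr t) (inr t') h h' (fun q => hne (inr_injective q)) e
  have pb : ∀ u u' t, rel u t → rel u' t → cc u t = cc u' t → u = u' := by
    intro u u' t h h' e
    by_contra hne
    refine hc (inr t) (inl u) (inl u') h h' (fun q => hne (inl_injective q)) ?_
    rw [Sym2.eq_swap (a := inr t), Sym2.eq_swap (a := inr t)]
    exact e
  have sur : ∀ u t, rel u t → ∃ v, cc v none = cc u t := by
    intro u t h
    have hinj : Function.Injective (fun v => cc v none) :=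
      fun v v' e => pb v v' none trivial trivial e
    have h1 : (Set.range (fun v => cc v none)).ncard = 2 * (r + 2) + 1 := by
      rw [Set.ncard_range_of_injective hinj, Nat.card_eq_fintype_card, card_U]
    have h2 : Set.range (fun v => cc v none) ⊆ c '' (G (r + 2)).edgeSet := by
      rintro _ ⟨v, rfl⟩
      exact ⟨_, (show (G (r + 2)).Adj (inl v) (inr none) from trivial), rfl⟩
    have h3 := Set.eq_of_subset_of_ncard_le h2 (by omega) (Set.toFinite _)
    have h4 : cc u t ∈ c '' (G (r + 2)).edgeSet :=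
      ⟨_, (show (G (r + 2)).Adj (inl u) (inr t) from h), rfl⟩
    rw [← h3] at h4
    exact h4
  have cyc : ∀ i j t t', t ≠ t' → rel (some (false, i)) t → rel (some (false, i)) t' →
      rel (some (true, j)) t → rel (some (true, j)) t' →
      cc (some (false, i)) t = cc (some (true, j)) t' ∨
        cc (some (false, i)) t' = cc (some (true, j)) t := by
    intro i j t t' hne h1 h2 h3 h4
    by_contra hcon
    push Not at hcon
    exact hno (ext (G (r + 2)) c hc (2 * r + 1) (inl (some (false, i))) (inr t)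
      (inl (some (true, j))) (inr t') h1 h3 h4 h2 (fun q => hne (inr_injective q)) (by simp)
      (fun q => q) hcon.1 hcon.2 (le_trans (by omega) (deg_L (r + 2) i)))
  have rl : ∀ (b : Bool) (i j : Fin (r + 2)), rel (some (false, i)) (some (b, i, j)) :=
    fun b i j => Or.inl rfl
  have rr : ∀ (b : Bool) (i j : Fin (r + 2)), rel (some (true, j)) (some (b, i, j)) :=
    fun b i j => Or.inr rfl
  have key : ∀ i j, ∃ b : Bool,
      cc (some (false, i)) (some (b, i, j)) = cc (some (true, j)) none ∧
      cc (some (true, j)) (some (!b, i, j)) = cc (some (false, i)) none ∧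
      cc (some (false, i)) (some (!b, i, j)) = cc (some (true, j)) (some (b, i, j)) := by
    intro i j
    have e1 := cyc i j (some (false, i, j)) none (by simp) (rl _ _ _) trivial (rr _ _ _) trivial
    have e2 := cyc i j (some (true, i, j)) none (by simp) (rl _ _ _) trivial (rr _ _ _) trivial
    have e3 := cyc i j (some (false, i, j)) (some (true, i, j)) (by simp) (rl _ _ _) (rl _ _ _)
      (rr _ _ _) (rr _ _ _)
    have n1 : cc (some (false, i)) (some (false, i, j)) ≠ cc (some (false, i)) (some (true, i, j)) :=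
      fun q => by simpa using pa _ _ _ (rl _ _ _) (rl _ _ _) q
    have n2 : cc (some (true, j)) (some (false, i, j)) ≠ cc (some (true, j)) (some (true, i, j)) :=
      fun q => by simpa using pa _ _ _ (rr _ _ _) (rr _ _ _) q
    have n3 : cc (some (false, i)) none ≠ cc (some (true, j)) none :=
      fun q => by simpa using pb _ _ none trivial trivial q
    rcases e1 with e1 | e1 <;> rcases e2 with e2 | e2
    · exact absurd (e1.trans e2.symm) n1
    · refine ⟨false, e1, e2.symm, ?_⟩
      rcases e3 with e3 | e3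
      · exact absurd (e2.trans (e3.symm.trans e1)) n3
      · exact e3
    · refine ⟨true, e2, e1.symm, ?_⟩
      rcases e3 with e3 | e3
      · exact e3
      · exact absurd (e1.trans (e3.symm.trans e2)) n3
    · exact absurd (e1.symm.trans e2) n2
  choose b hb using key
  have hcen : ∀ i j, cc (some (false, i)) (some (!(b i j), i, j)) = cc none none := by
    intro i j
    obtain ⟨v, hv⟩ := sur _ _ (rl (!(b i j)) i j)
    rcases v with _ | ⟨_ | _, l⟩
    · exact hv.symm
    · have := pa _ _ _ (rr _ _ _) (rr _ _ _) ((hb l j).2.1.trans (hv.trans (hb i j).2.2))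
      simp only [Option.some.injEq, Prod.mk.injEq] at this
      obtain ⟨q1, rfl, -⟩ := this
      simp at q1
    · have := pa _ _ _ (rl _ _ _) (rl _ _ _) ((hb i l).1.trans hv)
      simp only [Option.some.injEq, Prod.mk.injEq] at this
      obtain ⟨q1, -, rfl⟩ := this
      simp at q1
  have := pa _ _ _ (rl _ _ _) (rl _ _ _) ((hcen 0 0).trans (hcen 0 1).symm)
  simp at this

theorem avoid (r k : ℕ) : ∃ c, Proper (G r) c ∧ ¬ Rainbow (H k) (G r) c := by
  obtain ⟨e, he⟩ := exists_injective_nat (U r ⊕ Fin r × Fin r)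
  refine ⟨lft (fun u t => e (col2 u t)), proper_lft _
    (fun u t t' h h' q => col2_a u t t' h h' (he q))
    (fun u u' t h h' q => col2_b u u' t h h' (he q)), ?_⟩
  rintro ⟨f, hf, hadj, hinj⟩
  have a0 : (G r).Adj (f (inl 0)) (f (inl 1)) := hadj _ _ (H_adjc k 0)
  have a1 : (G r).Adj (f (inl 1)) (f (inl 2)) := hadj _ _ (H_adjc k 1)
  have a2 : (G r).Adj (f (inl 2)) (f (inl 3)) := hadj _ _ (H_adjc k 2)
  have a3 : (G r).Adj (f (inl 3)) (f (inl 0)) := hadj _ _ (H_adjc k 3)
  have n02 : f (inl 0) ≠ f (inl 2) := fun q => by simpa using hf q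
  have n13 : f (inl 1) ≠ f (inl 3) := fun q => by simpa using hf q
  have c1 : lft (fun u t => e (col2 u t)) s(f (inl 0), f (inl 1)) ≠
      lft (fun u t => e (col2 u t)) s(f (inl 2), f (inl 3)) := fun q => by
    have := hinj ((H k).mem_edgeSet.2 (H_adjc k 0)) ((H k).mem_edgeSet.2 (H_adjc k 2)) q
    simp at this
  have c2 : lft (fun u t => e (col2 u t)) s(f (inl 1), f (inl 2)) ≠
      lft (fun u t => e (col2 u t)) s(f (inl 3), f (inl 0)) := fun q => by
    have := hinj ((H k).mem_edgeSet.2 (H_adjc k 1)) ((H k).mem_edgeSet.2 (H_adjc k 3)) q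
    simp at this
  generalize f (inl 0) = x0 at *
  generalize f (inl 1) = x1 at *
  generalize f (inl 2) = x2 at *
  generalize f (inl 3) = x3 at *
  rcases x0 with x0 | x0 <;> rcases x1 with x1 | x1 <;> try exact a0.elim
  all_goals rcases x2 with x2 | x2 <;> try exact a1.elim
  all_goals rcases x3 with x3 | x3 <;> try exact a2.elim
  · rcases col2_c x0 x2 x1 x3 (fun q => n02 (congrArg _ q)) (fun q => n13 (congrArg _ q))
      a0 a3 a1 a2 with q | q
    · exact c1 (congrArg e q)
    · exact c2 (congrArg e q.symm)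
  · rcases col2_c x1 x3 x0 x2 (fun q => n13 (congrArg _ q)) (fun q => n02 (congrArg _ q))
      a0 a1 a3 a2 with q | q
    · exact c1 (congrArg e q)
    · exact c2 (congrArg e q)

theorem result (N : ℕ) : ∃ (α : Type) (_ : Fintype α) (H : SimpleGraph α),
    N ≤ Fintype.card α ∧ H.Connected ∧
      ∃ (β : Type) (_ : Fintype β) (G : SimpleGraph β), Witness H G := by
  refine ⟨Fin 4 ⊕ Fin (2 * N + 1), inferInstance, H _, by simp; omega, H_conn _,
    U (N + 2) ⊕ W (N + 2), inferInstance, G _, ?_⟩
  obtain ⟨e, he⟩ := exists_injective_nat (U (N + 2))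
  have hp : Proper (G (N + 2)) (lft (fun u t => e (col1 u t))) := proper_lft _
    (fun u t t' h h' q => col1_a u t t' h h' (he q))
    (fun u u' t h h' q => col1_b u u' t h h' (he q))
  have hn : (lft (fun u t => e (col1 u t)) '' (G (N + 2)).edgeSet).ncard ≤ 2 * (N + 2) + 1 := by
    have h1 : (Set.range e).ncard = 2 * (N + 2) + 1 := by
      rw [Set.ncard_range_of_injective he, Nat.card_eq_fintype_card, card_U]
    rw [← h1]
    refine Set.ncard_le_ncard ?_ (Set.toFinite _)
    rintro _ ⟨x, hx, rfl⟩
    induction x using Sym2.ind with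
    | _ a b =>
      rcases a with a | a <;> rcases b with b | b
      · exact hx.elim
      · exact ⟨_, rfl⟩
      · exact ⟨_, rfl⟩
      · exact hx.elim
  have hne : {m | ∃ c, Proper (G (N + 2)) c ∧ (c '' (G (N + 2)).edgeSet).ncard = m}.Nonempty :=
    ⟨_, _, hp, rfl⟩
  refine ⟨_, isLeast_csInf hne, fun c hc hk => forced N c hc ?_, avoid _ _⟩
  rw [hk]
  exact le_trans (Nat.sInf_le ⟨_, hp, rfl⟩) hn

end Pool.Agent.Results.MP_1c393c_co.Family
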